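import Pool.Agent.Y18.NF.Eu

/-!
Number fields inside the complex numbers.
-/

set_option autoImplicit false

open NumberField IsDedekindDomain H300.HW UpperHalfPlane MatrixGroups CongruenceSubgroup
open scoped symmDiff

namespace Pool.Agent.Y18.NF

open Pool.Agent.Y18.BSD
open Pool.Agent.W263.BSD (pointCount GoodPrime IsLSeries)
open W165.CE (fac av)

section transport
variable {K K' : Type} [Field K] [NumberField K] [Field K'] [NumberField K']

/-- transport of places -/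
noncomputable def plE (e : 𝓞 K ≃+* 𝓞 K') : HeightOneSpectrum (𝓞 K) ≃ HeightOneSpectrum (𝓞 K') where
  toFun v := ⟨v.asIdeal.comap (e.symm : 𝓞 K' →+* 𝓞 K), by
    have := v.isPrime
    exact Ideal.comap_isPrime (e.symm : 𝓞 K' →+* 𝓞 K) v.asIdeal, by
    intro h
    apply v.ne_bot
    rw [eq_bot_iff]
    intro x hx
    have h1 : e x ∈ v.asIdeal.comap (e.symm : 𝓞 K' →+* 𝓞 K) := by
      rw [Ideal.mem_comap]
      show e.symm (e x) ∈ _
      rwa [e.symm_apply_apply]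
    rw [h, Ideal.mem_bot] at h1
    rw [Ideal.mem_bot]
    exact e.injective (by rw [h1, map_zero])⟩
  invFun v := ⟨v.asIdeal.comap (e : 𝓞 K →+* 𝓞 K'), by
    have := v.isPrime
    exact Ideal.comap_isPrime (e : 𝓞 K →+* 𝓞 K') v.asIdeal, by
    intro h
    apply v.ne_bot
    rw [eq_bot_iff]
    intro x hx
    have h1 : e.symm x ∈ v.asIdeal.comap (e : 𝓞 K →+* 𝓞 K') := by
      rw [Ideal.mem_comap]
      show e (e.symm x) ∈ _
      rwa [e.apply_symm_apply]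
    rw [h, Ideal.mem_bot] at h1
    rw [Ideal.mem_bot]
    exact e.symm.injective (by rw [h1, map_zero])⟩
  left_inv v := by
    apply HeightOneSpectrum.ext
    ext x
    show e.symm (e x) ∈ v.asIdeal ↔ x ∈ v.asIdeal
    rw [e.symm_apply_apply]
  right_inv v := by
    apply HeightOneSpectrum.ext
    ext x
    show e (e.symm x) ∈ v.asIdeal ↔ x ∈ v.asIdeal
    rw [e.apply_symm_apply]

lemma mem_plE (e : 𝓞 K ≃+* 𝓞 K') (v : HeightOneSpectrum (𝓞 K)) (x : 𝓞 K') :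
    x ∈ (plE e v).asIdeal ↔ e.symm x ∈ v.asIdeal := Iff.rfl

/-- the isomorphism of the residue fields -/
noncomputable def resE (e : 𝓞 K ≃+* 𝓞 K') (v : HeightOneSpectrum (𝓞 K)) :
    (𝓞 K ⧸ v.asIdeal) ≃+* (𝓞 K' ⧸ (plE e v).asIdeal) :=
  Ideal.quotientEquiv v.asIdeal (plE e v).asIdeal e (by
    symm
    exact Ideal.map_comap_of_equiv e)

lemma absNorm_plE (e : 𝓞 K ≃+* 𝓞 K') (v : HeightOneSpectrum (𝓞 K)) :
    Ideal.absNorm (plE e v).asIdeal = Ideal.absNorm v.asIdeal := by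
  rw [Ideal.absNorm_apply, Ideal.absNorm_apply, Submodule.cardQuot_apply, Submodule.cardQuot_apply]
  exact (Nat.card_congr (resE e v).toEquiv).symm

lemma av_plE (e : 𝓞 K ≃+* 𝓞 K') (a b : ℤ) (v : HeightOneSpectrum (𝓞 K)) :
    av a b (plE e v) = av a b v := by
  unfold av
  rw [absNorm_plE]
  congr 2
  symm
  refine Nat.card_congr (Equiv.subtypeEquiv
    (Equiv.prodCongr (resE e v).toEquiv (resE e v).toEquiv) fun x => ?_)
  show _ ↔ (resE e v) x.2 ^ 2 = (resE e v) x.1 ^ 3 + (a : _) * (resE e v) x.1 + (b : _)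
  rw [← map_intCast (resE e v) a, ← map_intCast (resE e v) b, ← map_pow, ← map_pow, ← map_mul,
    ← map_add, ← map_add]
  exact (resE e v).injective.eq_iff.symm

lemma fac_plE (e : 𝓞 K ≃+* 𝓞 K') (a b : ℤ) (N : ℕ) (c : ℕ → ℂ) (s : ℂ)
    (v : HeightOneSpectrum (𝓞 K)) : fac a b N c s (plE e v) = fac a b N c s v := by
  unfold fac
  rw [absNorm_plE, av_plE]
  have h : ((2 * (4 * a ^ 3 + 27 * b ^ 2) : ℤ) : 𝓞 K') ∈ (plE e v).asIdeal ↔
      ((2 * (4 * a ^ 3 + 27 * b ^ 2) : ℤ) : 𝓞 K) ∈ v.asIdeal := by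
    rw [mem_plE, map_intCast]
  by_cases h1 : ((2 * (4 * a ^ 3 + 27 * b ^ 2) : ℤ) : 𝓞 K) ∈ v.asIdeal
  · rw [if_pos h1, if_pos (h.2 h1)]
  · rw [if_neg h1, if_neg (fun h2 => h1 (h.1 h2))]

lemma hasProd_plE (e : 𝓞 K ≃+* 𝓞 K') (a b : ℤ) (N : ℕ) (c : ℕ → ℂ) (s z : ℂ)
    (h : HasProd (fac (K := K) a b N c s) z) : HasProd (fac (K := K') a b N c s) z := by
  rw [← (plE e).hasProd_iff]
  refine (congrArg (fun g => HasProd g z) (funext fun v => ?_)).mp h
  exact (fac_plE e a b N c s v).symm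

end transport

/-- a finite extension inside the field generated by a set lies in the field generated by a finite
subset -/
lemma finite_gen (F : IntermediateField ℚ ℂ) [FiniteDimensional ℚ F] (Z : Set ℂ)
    (hF : F ≤ IntermediateField.adjoin ℚ Z) :
    ∃ Z0 : Finset ℂ, (Z0 : Set ℂ) ⊆ Z ∧ F ≤ IntermediateField.adjoin ℚ (Z0 : Set ℂ) := by
  classical
  let B := Module.finBasis ℚ F
  have h1 : ∀ i, ∃ T : Finset ℂ, (T : Set ℂ) ⊆ Z ∧
      (B i : ℂ) ∈ IntermediateField.adjoin ℚ (T : Set ℂ) := fun i =>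
    IntermediateField.exists_finset_of_mem_adjoin (hF (B i).2)
  choose T hT1 hT2 using h1
  refine ⟨Finset.univ.biUnion T, ?_, ?_⟩
  · intro z hz
    rw [Finset.mem_coe, Finset.mem_biUnion] at hz
    obtain ⟨i, -, hi⟩ := hz
    exact hT1 i hi
  · intro x hx
    have h2 := B.sum_repr ⟨x, hx⟩
    have h3 : x = ∑ i, (B.repr ⟨x, hx⟩ i) • (B i : ℂ) := by
      have h4 := congrArg (fun y : F => (y : ℂ)) h2
      simp only [IntermediateField.coe_sum] at h4
      exact h4.symm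
    rw [h3]
    refine sum_mem fun i _ => ?_
    refine IntermediateField.smul_mem _ ?_
    refine IntermediateField.adjoin.mono ℚ _ _ ?_ (hT2 i)
    exact Finset.coe_subset.2 (Finset.subset_biUnion_of_mem T (Finset.mem_univ i))

variable {N : ℕ} [NeZero N] {a b : ℤ} {f : CuspForm (Gamma0 N : Subgroup (GL (Fin 2) ℝ)) 2}

/-- **The `L`-function over a number field contained in a multiquadratic field.** -/
theorem core (hΔ : 4 * a ^ 3 + 27 * b ^ 2 ≠ 0) (hf : IsFormOf a b N f)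
    (X : Set (Finset ℕ)) (hX0 : ∅ ∈ X) (hXc : ∀ S ∈ X, ∀ T ∈ X, S ∆ T ∈ X)
    (hXg : ∀ T ∈ X, ∀ q ∈ T, GoodPrime a b q)
    (hXr : ∀ T ∈ X, RankZero (a * disc T ^ 2) (b * disc T ^ 3))
    (F : IntermediateField ℚ ℂ) [NumberField F]
    (hF : F ≤ IntermediateField.adjoin ℚ {z : ℂ | ∃ T ∈ X, z ^ 2 = ((disc T : ℤ) : ℂ)}) :
    ∃ G : ℂ → ℂ, Differentiable ℂ G ∧
      (∀ s : ℂ, 3 / 2 < s.re → HasProd (fac (K := F) a b N (co f) s) (G s)) ∧ G 1 ≠ 0 := by
  classical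
  obtain ⟨Z0, hZ1, hZ2⟩ := finite_gen F _ hF
  have h1 : ∀ z : ℂ, ∃ T : Finset ℕ, z ∈ Z0 → T ∈ X ∧ z ^ 2 = ((disc T : ℤ) : ℂ) := by
    intro z
    by_cases hz : z ∈ Z0
    · obtain ⟨T, hT, h⟩ := hZ1 hz
      exact ⟨T, fun _ => ⟨hT, h⟩⟩
    · exact ⟨∅, fun h => absurd h hz⟩
  choose T hT using h1
  set S0 : Finset ℕ := Z0.biUnion T with hS0
  have hS0X : ∀ q ∈ S0, GoodPrime a b q := by
    intro q hq
    rw [hS0, Finset.mem_biUnion] at hq
    obtain ⟨z, hz, hqz⟩ := hq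
    exact hXg _ (hT z hz).1 q hqz
  have hS0p : ∀ q ∈ S0, q.Prime ∧ q ≠ 2 := fun q hq => ⟨(hS0X q hq).1, good_ne_two (hS0X q hq)⟩
  set n : ℕ := dd S0 with hn
  have hn0 : NeZero n := ⟨dd_ne_zero fun q hq => (hS0p q hq).1⟩
  let L := CyclotomicField n ℚ
  have hcyc : IsCyclotomicExtension {n} ℚ L := CyclotomicField.isCyclotomicExtension n ℚ
  let φ : L →ₐ[ℚ] ℂ := IsAlgClosed.lift
  have hroot : ∀ T' ∈ X, T' ⊆ S0 → ∀ z : ℂ, z ^ 2 = ((disc T' : ℤ) : ℂ) →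
      ∃ g : L, φ g = z ∧ g ^ 2 = ((disc T' : ℤ) : L) := by
    intro T' _ hTS z hz
    obtain ⟨g, hg, -⟩ := gauss_T n L (fun q hq => hS0p q (hTS hq))
      (fun q hq => Finset.dvd_prod_of_mem _ (hTS hq))
    have h2 : (φ g) ^ 2 = ((disc T' : ℤ) : ℂ) := by rw [← map_pow, hg, map_intCast]
    rcases sq_eq_sq_iff_eq_or_eq_neg.1 (hz.trans h2.symm) with h | h
    · exact ⟨g, h.symm, hg⟩
    · exact ⟨-g, by rw [map_neg, h], by rw [neg_sq, hg]⟩
  set ZL : Set L := {z : L | ∃ T ∈ X, T ⊆ S0 ∧ z ^ 2 = ((disc T : ℤ) : L)} with hZL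
  have hadj : F ≤ (IntermediateField.adjoin ℚ ZL).map φ := by
    refine hZ2.trans ?_
    rw [IntermediateField.adjoin_map]
    refine IntermediateField.adjoin.mono ℚ _ _ ?_
    intro z hz
    have hz' : z ∈ Z0 := hz
    have hTS : T z ⊆ S0 := Finset.subset_biUnion_of_mem T hz'
    obtain ⟨g, hg1, hg2⟩ := hroot _ (hT z hz').1 hTS z (hT z hz').2
    exact ⟨g, ⟨T z, (hT z hz').1, hTS, hg2⟩, hg1⟩
  set F' : IntermediateField ℚ L := F.comap φ with hF'
  have hF'le : F' ≤ IntermediateField.adjoin ℚ ZL := by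
    intro x hx
    have h2 : φ x ∈ F := hx
    obtain ⟨y, hy, hyx⟩ := hadj h2
    have h3 : y = x := φ.toRingHom.injective hyx
    rw [← h3]
    exact hy
  obtain ⟨G, hG1, hG2, hG3⟩ := core_cyc hΔ hf X S0 hS0p hX0 hXc (fun T' hT' _ => hXg T' hT')
    (fun T' hT' _ => hXr T' hT') n dvd_rfl L F' hF'le
  let ψ : F' →+* F :=
    { toFun := fun x => ⟨φ x.1, x.2⟩
      map_one' := Subtype.ext (map_one φ)
      map_mul' := fun x y => Subtype.ext (map_mul φ x.1 y.1)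
      map_zero' := Subtype.ext (map_zero φ)
      map_add' := fun x y => Subtype.ext (map_add φ x.1 y.1) }
  have hψ : Function.Bijective ψ := by
    refine ⟨ψ.injective, fun y => ?_⟩
    obtain ⟨x, -, hx⟩ := hadj y.2
    exact ⟨⟨x, by
      show φ x ∈ F
      have : φ x = y := hx
      rw [this]
      exact y.2⟩, Subtype.ext hx⟩
  let e : F' ≃+* F := RingEquiv.ofBijective ψ hψ
  refine ⟨G, hG1, fun s hs => ?_, hG3⟩
  exact hasProd_plE (NumberField.RingOfIntegers.mapRingEquiv e) a b N (co f) s (G s) (hG2 s hs)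

end Pool.Agent.Y18.NF
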