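import Pool.Agent.Y18.BSD.Main
import Pool.Agent.H300R2.HWPoints

/-!
The characters of a subfield of a multiquadratic field of odd discriminant.
-/

set_option autoImplicit false

open NumberField H300.HW IsCyclotomicExtension.Rat
open scoped symmDiff

namespace Pool.Agent.Y18.NF

open Pool.Agent.Y18.BSD

/-- the square root of `q*` and the action of the Galois group -/
lemma gauss_q {L : Type*} [Field L] [CharZero L] {q : ℕ} (hq : q.Prime) (hq2 : q ≠ 2) {ζ : L}
    (hζ : IsPrimitiveRoot ζ q) : ∃ g : L, g ^ 2 = (((-1 : ℤ) ^ ((q - 1) / 2) * q : ℤ) : L) ∧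
      ∀ (σ : L →+* L) (k : ℕ), Nat.Coprime k q → σ ζ = ζ ^ k →
        σ g = ((jacobiSym k q : ℤ) : L) * g := by
  classical
  have : Fact q.Prime := ⟨hq⟩
  have : NeZero q := ⟨hq.ne_zero⟩
  have hchar : ringChar (ZMod q) ≠ 2 := by
    rw [ZMod.ringChar_zmod_n]
    exact hq2
  set χ : MulChar (ZMod q) L := (quadraticChar (ZMod q)).ringHomComp (Int.castRingHom L) with hχ
  have hχ1 : χ ≠ 1 := by
    intro h
    obtain ⟨a, ha⟩ := quadraticChar_exists_neg_one' hchar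
    have h1 := DFunLike.congr_fun h (a : ZMod q)
    rw [hχ, MulChar.ringHomComp_apply, ha, MulChar.one_apply a.isUnit] at h1
    have h2 : ((-1 : ℤ) : L) = 1 := h1
    have h3 : (-1 : ℤ) = 1 := by exact_mod_cast h2
    omega
  have hχ2 : χ.IsQuadratic := (quadraticChar_isQuadratic (ZMod q)).comp _
  set ψ := AddChar.zmodChar q hζ.pow_eq_one with hψ
  have h := gaussSum_sq hχ1 hχ2 (AddChar.zmodChar_primitive_of_primitive_root q hζ)
  refine ⟨gaussSum χ ψ, h.trans ?_, ?_⟩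
  · rw [ZMod.card]
    have hodd : q % 2 = 1 := hq.eq_two_or_odd.resolve_left hq2
    have h1 : χ (-1) = (((-1 : ℤ) ^ (q / 2) : ℤ) : L) := by
      rw [hχ, MulChar.ringHomComp_apply, quadraticChar_neg_one hchar, ZMod.card,
        ZMod.χ₄_eq_neg_one_pow hodd]
      rfl
    rw [h1, show (q - 1) / 2 = q / 2 by omega]
    push_cast
    rfl
  · intro σ k hk hσ
    have hku : IsUnit (k : ZMod q) := (ZMod.isUnit_iff_coprime k q).2 hk
    obtain ⟨u, hu⟩ := hku
    have hJ : (jacobiSym k q : ℤ) = quadraticChar (ZMod q) (k : ZMod q) := by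
      rw [← jacobiSym.legendreSym.to_jacobiSym]
      unfold legendreSym
      push_cast
      rfl
    have h1 : σ (gaussSum χ ψ) = gaussSum χ (ψ.mulShift (u : ZMod q)) := by
      unfold gaussSum
      rw [map_sum]
      refine Finset.sum_congr rfl fun x _ => ?_
      rw [map_mul, AddChar.mulShift_apply, hu]
      congr 1
      · rw [hχ, MulChar.ringHomComp_apply]
        simp
      · rw [hψ, AddChar.zmodChar_apply, map_pow, hσ, ← pow_mul]
        have h2 : ((k : ZMod q) * x) = ((k * x.val : ℕ) : ZMod q) := by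
          push_cast
          rw [ZMod.natCast_zmod_val]
        rw [h2, AddChar.zmodChar_apply']
    have h2 := gaussSum_mulShift χ ψ u
    have h3 : χ (u : ZMod q) = ((jacobiSym k q : ℤ) : L) := by
      rw [hχ, MulChar.ringHomComp_apply, hu, hJ]
      rfl
    have h4 : ((jacobiSym k q : ℤ) : L) ^ 2 = 1 := by
      rw [hJ]
      have h5 : (k : ZMod q) ≠ 0 := by
        rw [← hu]; exact u.ne_zero
      exact_mod_cast congrArg (fun x : ℤ => (x : L)) (quadraticChar_sq_one h5)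
    rw [h1, ← h2, h3, ← mul_assoc, ← sq, h4, one_mul]

lemma jc_empty {M : ℕ} (u : (ZMod M)ˣ) : jc ∅ u = 1 := by
  simp [jc, dd, jacobiSym.one_right]

section
variable (n : ℕ) [NeZero n] (L : Type*) [Field L] [NumberField L] [IsCyclotomicExtension {n} ℚ L]

lemma gauss_T {T : Finset ℕ} (hT : ∀ q ∈ T, q.Prime ∧ q ≠ 2) (hn : ∀ q ∈ T, q ∣ n) :
    ∃ g : L, g ^ 2 = ((disc T : ℤ) : L) ∧ ∀ σ : Gal(L/ℚ),
      σ g = ((jc T (galEquivZMod n L σ) : ℤ) : L) * g := by
  classical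
  have h1 : ∀ q : ℕ, ∃ g : L, q ∈ T → g ^ 2 = (((-1 : ℤ) ^ ((q - 1) / 2) * q : ℤ) : L) ∧
      ∀ σ : Gal(L/ℚ), σ g =
        ((jacobiSym ((galEquivZMod n L σ : (ZMod n)ˣ) : ZMod n).val q : ℤ) : L) * g := by
    intro q
    by_cases hq : q ∈ T
    · have hζ := IsCyclotomicExtension.zeta_spec n ℚ L
      obtain ⟨m, hm⟩ := hn q hq
      have hζq := hζ.pow (NeZero.pos n) (show n = m * q by rw [hm, mul_comm])
      obtain ⟨g, hg1, hg2⟩ := gauss_q (hT q hq).1 (hT q hq).2 hζq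
      refine ⟨g, fun _ => ⟨hg1, fun σ => ?_⟩⟩
      refine hg2 (σ : L →+* L) _ ?_ ?_
      · exact (ZMod.val_coe_unit_coprime _).coprime_dvd_right (hn q hq)
      · show σ _ = _
        rw [map_pow, galEquivZMod_apply_of_pow_eq n L σ hζ.pow_eq_one, ← pow_mul, ← pow_mul, mul_comm]
    · exact ⟨0, fun h => absurd h hq⟩
  choose g hg using h1
  refine ⟨∏ q ∈ T, g q, ?_, fun σ => ?_⟩
  · rw [← Finset.prod_pow]
    unfold disc
    push_cast
    refine Finset.prod_congr rfl fun q hq => ?_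
    rw [(hg q hq).1]
    push_cast
    rfl
  · rw [map_prod]
    unfold jc
    rw [jac_prod (fun q hq => (hT q hq).1)]
    push_cast
    rw [← Finset.prod_mul_distrib]
    exact Finset.prod_congr rfl fun q hq => (hg q hq).2 σ

/-- the Galois action on a square root of the discriminant -/
lemma root_act {T : Finset ℕ} (hT : ∀ q ∈ T, q.Prime ∧ q ≠ 2) (hn : ∀ q ∈ T, q ∣ n) {z : L}
    (hz : z ^ 2 = ((disc T : ℤ) : L)) (σ : Gal(L/ℚ)) (hσ : jc T (galEquivZMod n L σ) = 1) :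
    σ z = z := by
  obtain ⟨g, hg1, hg2⟩ := gauss_T n L hT hn
  have h1 : σ g = g := by rw [hg2 σ, hσ, Int.cast_one, one_mul]
  rcases sq_eq_sq_iff_eq_or_eq_neg.1 (hz.trans hg1.symm) with h | h
  · rw [h, h1]
  · rw [h, map_neg, h1]

lemma jc_symmDiff {S T S0 : Finset ℕ} (h0 : ∀ q ∈ S0, q.Prime) (hS : S ⊆ S0) (hT : T ⊆ S0)
    (hn : dd S0 ∣ n) (u : (ZMod n)ˣ) : jc (S ∆ T) u = jc S u * jc T u := by
  have hST : S ∆ T ⊆ S0 := by
    intro q hq
    rcases Finset.mem_symmDiff.1 hq with h | h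
    · exact hS h.1
    · exact hT h.1
  rw [jc_eps h0 hST hn, jc_eps h0 hS hn, jc_eps h0 hT hn, eps_symmDiff]

/-- the group of the characters of the sets in `X` -/
noncomputable def XX (X : Set (Finset ℕ)) (S0 : Finset ℕ) (h0 : ∀ q ∈ S0, q.Prime)
    (hn : dd S0 ∣ n) (hX0 : ∅ ∈ X) (hXc : ∀ S ∈ X, ∀ T ∈ X, S ∆ T ∈ X) :
    Subgroup (DirichletCharacter ℂ n) where
  carrier := {χ | ∃ T ∈ X, T ⊆ S0 ∧ ∀ u : (ZMod n)ˣ, χ (u : ZMod n) = (jc T u : ℂ)}
  one_mem' := ⟨∅, hX0, Finset.empty_subset _, fun u => by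
    rw [jc_empty, MulChar.one_apply u.isUnit, Int.cast_one]⟩
  mul_mem' := by
    rintro χ χ' ⟨T, hT, hTS, h1⟩ ⟨T', hT', hTS', h1'⟩
    refine ⟨T ∆ T', hXc T hT T' hT', ?_, fun u => ?_⟩
    · intro q hq
      rcases Finset.mem_symmDiff.1 hq with h | h
      · exact hTS h.1
      · exact hTS' h.1
    · rw [MulChar.mul_apply, h1, h1', jc_symmDiff n h0 hTS hTS' hn, Int.cast_mul]
  inv_mem' := by
    rintro χ ⟨T, hT, hTS, h1⟩
    refine ⟨T, hT, hTS, fun u => ?_⟩
    rw [MulChar.inv_apply_eq_inv', h1]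
    have h4 : (jc T u : ℂ) ^ 2 = 1 := by
      have h5 : dd T ∣ n := (dd_dvd hTS).trans hn
      exact_mod_cast congrArg (fun x : ℤ => (x : ℂ)) (jc_sq T h5 u)
    exact inv_eq_of_mul_eq_one_left (by rw [← sq, h4])

/-- **The characters of a field contained in the multiquadratic field of `X`.** -/
theorem YY_sub (X : Set (Finset ℕ)) (S0 : Finset ℕ) (h0 : ∀ q ∈ S0, q.Prime ∧ q ≠ 2)
    (hn : dd S0 ∣ n) (hX0 : ∅ ∈ X) (hXc : ∀ S ∈ X, ∀ T ∈ X, S ∆ T ∈ X)
    (F : IntermediateField ℚ L)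
    (hF : F ≤ IntermediateField.adjoin ℚ {z : L | ∃ T ∈ X, T ⊆ S0 ∧ z ^ 2 = ((disc T : ℤ) : L)})
    {χ : DirichletCharacter ℂ n} (hχ : χ ∈ YY n L F) :
    ∃ T ∈ X, T ⊆ S0 ∧ ∀ u : (ZMod n)ˣ, χ (u : ZMod n) = (jc T u : ℂ) := by
  classical
  have h0' : ∀ q ∈ S0, q.Prime := fun q hq => (h0 q hq).1
  set Y := XX n X S0 h0' hn hX0 hXc with hY
  set G' : Subgroup Gal(L/ℚ) := (subgroupGalEquivSubgroupChar n L ℂ).symm (OrderDual.toDual Y)
    with hG'
  set F' := IntermediateField.fixedField G' with hF'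
  have hmem : ∀ σ : Gal(L/ℚ), σ ∈ G' ↔ ∀ ψ ∈ Y, ψ (galEquivZMod n L σ) = 1 := fun σ =>
    mem_subgroupGalEquivSubgroupChar_symm_iff n L ℂ σ Y
  have hYY : YY n L F' = Y := by
    unfold YY
    rw [hF', IntermediateField.fixingSubgroup_fixedField, hG', OrderIso.apply_symm_apply]
    rfl
  have hdvd : ∀ q ∈ S0, q ∣ n := fun q hq => (Finset.dvd_prod_of_mem _ hq).trans hn
  have hFF : F ≤ F' := by
    refine hF.trans (IntermediateField.adjoin_le_iff.2 ?_)
    rintro z ⟨T, hT, hTS, hz⟩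
    show z ∈ F'
    rw [hF', IntermediateField.mem_fixedField_iff]
    intro σ hσ
    refine root_act n L (fun q hq => h0 q (hTS hq)) (fun q hq => hdvd q (hTS hq)) hz σ ?_
    have hTp : ∀ q ∈ T, q.Prime := fun q hq => h0' q (hTS hq)
    obtain ⟨ψ, hψ, hψj⟩ := H385.jac_char (dd T) (dd_odd fun q hq => h0 q (hTS hq)) (dd_sqfree hTp)
    have hTn : dd T ∣ n := (dd_dvd hTS).trans hn
    have h2 : ∀ u : (ZMod n)ˣ, DirichletCharacter.changeLevel hTn ψ (u : ZMod n) = (jc T u : ℂ) := by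
      intro u
      rw [DirichletCharacter.changeLevel_eq_cast_of_dvd]
      have := hψj (u : ZMod n).val
      rw [ZMod.natCast_val] at this
      exact this
    have h3 := (hmem σ).1 hσ (DirichletCharacter.changeLevel hTn ψ) ⟨T, hT, hTS, h2⟩
    rw [h2] at h3
    exact_mod_cast h3
  have h1 : χ ∈ YY n L F' := by
    rw [mem_YY] at hχ ⊢
    exact fun σ hσ => hχ σ (IntermediateField.fixingSubgroup_antitone hFF hσ)
  rw [hYY] at h1
  exact h1

omit [NeZero n] in
/-- the values of the primitive character -/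
lemma pv_jac [NeZero n] {T : Finset ℕ} (hT : ∀ q ∈ T, q.Prime ∧ q ≠ 2) (hn : dd T ∣ n)
    {χ : DirichletCharacter ℂ n} (hχ : ∀ u : (ZMod n)ˣ, χ (u : ZMod n) = (jc T u : ℂ)) (p : ℕ) :
    χ.primitiveCharacter ((p : ℕ) : ZMod χ.conductor) = (jacobiSym p (dd T) : ℂ) := by
  obtain ⟨ψ, hψ, hψj⟩ := H385.jac_char (dd T) (dd_odd hT) (dd_sqfree fun q hq => (hT q hq).1)
  have h2 : χ = DirichletCharacter.changeLevel hn ψ := by
    apply MulChar.ext
    intro u
    rw [hχ u, DirichletCharacter.changeLevel_eq_cast_of_dvd]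
    have := hψj (u : ZMod n).val
    rw [ZMod.natCast_val] at this
    exact this.symm
  rw [← hψj p, h2]
  have h3 := DirichletCharacter.primitiveCharacter_changeLevel_apply hn ψ (p : ℤ)
  rw [Int.cast_natCast, Int.cast_natCast] at h3
  rw [h3]
  by_cases hp : IsCoprime (p : ℤ) (dd T : ℤ)
  · have h4 := ψ.primitiveCharacter_apply_of_isCoprime hp
    rw [Int.cast_natCast, Int.cast_natCast] at h4
    exact h4
  · have h4 := (DirichletCharacter.apply_eq_zero_iff ψ (p : ℤ)).2 hp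
    rw [Int.cast_natCast] at h4
    rw [h4]
    have h5 := (DirichletCharacter.apply_eq_zero_iff ψ.primitiveCharacter (p : ℤ)).2
      (by rwa [hψ])
    rw [Int.cast_natCast] at h5
    exact h5

end

end Pool.Agent.Y18.NF
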