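import Pool.Agent.Y18.BSD.Main
import Pool.Agent.Y18.BSD.Eleven

/-!
`L(X_0(11), 1) ≠ 0`.
-/

set_option autoImplicit false

open UpperHalfPlane MatrixGroups CongruenceSubgroup Filter Topology

namespace Pool.Agent.Y18.NF

open Pool.Agent.Y18.BSD
open Pool.Agent.W97.TW (f11)
open Pool.Agent.Y702.M (F prim_eq W_pos)

lemma disc_empty : disc ∅ = 1 := by simp [disc]

lemma dd_empty : dd ∅ = 1 := by simp [dd]

theorem rankZero11 : RankZero (-13392) (-1080432) := by
  obtain ⟨L, Op, Om, c, hOp, hOm, g2, g3, hL, hc, hC, hP⟩ := Pool.Agent.Y702.M.main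
  have hf := Eleven.isFormOf
  obtain ⟨w, hnf, hfr⟩ := hf.newf
  have h0 := bv_tendsto f11 hfr 0 (by simp)
  have hb : bv f11 0 = c := by
    have h3 := Pool.Agent.TH940.prim_line f11 0
    have h4 : Tendsto (fun T : ℝ => (c : ℂ) - Pool.Agent.TH940.prim f11 (((0 : ℝ) : ℂ) +
        (T : ℂ) * Complex.I)) atTop (𝓝 (c - 0)) := h3.const_sub _
    rw [sub_zero] at h4
    have h5 : Tendsto (fun y : ℝ => 1 / (11 * y)) (𝓝[>] 0) atTop := by
      have h6 : Tendsto (fun y : ℝ => (11 : ℝ)⁻¹ * y⁻¹) (𝓝[>] 0) atTop :=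
        tendsto_inv_nhdsGT_zero.const_mul_atTop (by positivity)
      refine h6.congr fun y => ?_
      rw [one_div, mul_inv (11 : ℝ) y]
    refine tendsto_nhds_unique h0 ((h4.comp h5).congr' ?_)
    filter_upwards [self_mem_nhdsWithin] with y hy
    have hy0 : (0 : ℝ) < y := hy
    have hyc : (y : ℂ) ≠ 0 := by exact_mod_cast hy0.ne'
    have hz : 0 < (((0 : ℝ) : ℂ) + ((1 / (11 * y) : ℝ) : ℂ) * Complex.I).im := by
      have : (0 : ℝ) < 1 / (11 * y) := by positivity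
      simpa using this
    have h7 := hC _ hz
    have e1 : (-1 / (11 * (((0 : ℝ) : ℂ) + ((1 / (11 * y) : ℝ) : ℂ) * Complex.I)) : ℂ) =
        (((0 : ℚ) : ℂ) + (y : ℂ) * Complex.I) := by
      push_cast
      have hI : Complex.I ≠ 0 := Complex.I_ne_zero
      field_simp
      linear_combination (-(y : ℂ)) * Complex.I_sq
    rw [e1] at h7
    have hy1 : 0 < (((0 : ℚ) : ℂ) + (y : ℂ) * Complex.I).im := by simpa using hy0
    show (c : ℂ) - Pool.Agent.TH940.prim f11 (((0 : ℝ) : ℂ) + ((1 / (11 * y) : ℝ) : ℂ) *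
      Complex.I) = _
    rw [prim_eq hz, prim_eq hy1, h7]
  have hc0 : c ≠ 0 := by
    rintro rfl
    linarith
  have hT : ∀ q ∈ (∅ : Finset ℕ), Pool.Agent.W263.BSD.GoodPrime (-13392) (-1080432) q := by simp
  have hne : NeZero (dd ∅) := ⟨by rw [dd_empty]; exact one_ne_zero⟩
  obtain ⟨G, hG, κ, hκ, h1⟩ := twist_lseries (by norm_num) hf hT
  rw [disc_empty, one_pow, one_pow, mul_one, mul_one] at hG
  rw [psi_one _ _ dd_empty, hb] at h1
  refine ⟨G, hG, fun h => ?_⟩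
  rw [h, mul_zero] at h1
  exact hc0 (by exact_mod_cast h1.symm)

end Pool.Agent.Y18.NF
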