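import Pool.Agent.Y18.BSD.Corr

/-!
Infinite subgroups and tuples on which a function comparable with integral combinations of characters
does not vanish.
-/

set_option autoImplicit false

open scoped symmDiff

namespace Pool.Agent.Y18.NF

open Pool.Agent.Y18.BSD

/-- comparison with integral combinations of characters, up to odd factors -/
def Cmp (P : ℕ → Prop) (β : Finset ℕ → ℤ) : Prop :=
  ∀ S : Finset ℕ, (∀ q ∈ S, P q) → ∃ A ∈ Comb, ∀ T ⊆ S, ∃ o : ℤ, ¬ (2 : ℤ) ∣ o ∧ A T = o * β T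

lemma Cmp.prod {P : ℕ → Prop} {ι : Type*} (s : Finset ι) (β : ι → Finset ℕ → ℤ)
    (h : ∀ i ∈ s, Cmp P (β i)) : Cmp P (fun T => ∏ i ∈ s, β i T) := by
  classical
  intro S hS
  have h1 : ∀ i, ∃ A : Finset ℕ → ℤ, i ∈ s → A ∈ Comb ∧
      ∀ T ⊆ S, ∃ o : ℤ, ¬ (2 : ℤ) ∣ o ∧ A T = o * β i T := by
    intro i
    by_cases hi : i ∈ s
    · obtain ⟨A, hA, h2⟩ := h i hi S hS
      exact ⟨A, fun _ => ⟨hA, h2⟩⟩
    · exact ⟨0, fun h => absurd h hi⟩
  choose A hA using h1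
  refine ⟨∏ i ∈ s, A i, Comb.prod_mem _ _ fun i hi => (hA i hi).1, fun T hT => ?_⟩
  have h2 : ∀ i, ∃ o : ℤ, i ∈ s → ¬ (2 : ℤ) ∣ o ∧ A i T = o * β i T := by
    intro i
    by_cases hi : i ∈ s
    · obtain ⟨o, ho⟩ := (hA i hi).2 T hT
      exact ⟨o, fun _ => ho⟩
    · exact ⟨0, fun h => absurd h hi⟩
  choose o ho using h2
  refine ⟨∏ i ∈ s, o i, ?_, ?_⟩
  · intro h3
    rw [Int.prime_two.dvd_finsetProd_iff] at h3
    obtain ⟨i, hi, h4⟩ := h3
    exact (ho i hi).1 h4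
  · rw [Finset.prod_apply, ← Finset.prod_mul_distrib]
    exact Finset.prod_congr rfl fun i hi => (ho i hi).2

lemma Cmp.shift {P : ℕ → Prop} {β : Finset ℕ → ℤ} (h : Cmp P β) (T0 : Finset ℕ)
    (hT0 : ∀ q ∈ T0, P q) : Cmp P (fun T => β (T ∆ T0)) := by
  classical
  intro S hS
  obtain ⟨A, hA, h1⟩ := h (S ∪ T0) (by
    intro q hq
    rcases Finset.mem_union.1 hq with h | h
    · exact hS q h
    · exact hT0 q h)
  refine ⟨fun T => A (T0 ∆ T), (Comb.shift hA T0).1, fun T hT => ?_⟩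
  show ∃ o : ℤ, ¬ (2 : ℤ) ∣ o ∧ A (T0 ∆ T) = o * β (T ∆ T0)
  rw [symmDiff_comm T0 T]
  apply h1
  intro q hq
  rw [Finset.mem_symmDiff] at hq
  rcases hq with h | h
  · exact Finset.mem_union_left _ (hT h.1)
  · exact Finset.mem_union_right _ h.1

lemma not_dvd_natAbs {z : ℤ} (hz : z ≠ 0) : ¬ (2 : ℤ) ^ (z.natAbs + 1) ∣ z := by
  intro h1
  have h2 := Int.natAbs_dvd_natAbs.2 h1
  rw [Int.natAbs_pow] at h2
  have h3 := Nat.le_of_dvd (Int.natAbs_pos.2 hz) h2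
  have h4 : z.natAbs + 1 < (Int.natAbs 2) ^ (z.natAbs + 1) := Nat.lt_two_pow_self
  omega

/-- one step -/
lemma step {P : ℕ → Prop} {β : Finset ℕ → ℤ} (hβ : Cmp P β) {H : Set (Finset ℕ)}
    (hinf : H.Infinite) (hH0 : ∅ ∈ H) (hHc : ∀ S ∈ H, ∀ T ∈ H, S ∆ T ∈ H)
    (hHP : ∀ T ∈ H, ∀ q ∈ T, P q) (X : Finset (Finset ℕ)) (hX0 : ∅ ∈ X)
    (hXc : ∀ S ∈ X, ∀ T ∈ X, S ∆ T ∈ X) (hXH : ∀ T ∈ X, T ∈ H) (hXβ : ∀ T ∈ X, β T ≠ 0) :
    ∃ Y : Finset (Finset ℕ), X ⊂ Y ∧ (∀ S ∈ Y, ∀ T ∈ Y, S ∆ T ∈ Y) ∧ (∀ T ∈ Y, T ∈ H) ∧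
      ∀ T ∈ Y, β T ≠ 0 := by
  classical
  set β' : Finset ℕ → ℤ := fun T => ∏ d ∈ X, β (T ∆ d) with hβ'
  have h1 : Cmp P β' := Cmp.prod X _ fun d hd => hβ.shift d (hHP d (hXH d hd))
  have h2 : β' ∅ ≠ 0 := by
    rw [hβ']
    refine Finset.prod_ne_zero_iff.2 fun d hd => ?_
    have : ∅ ∆ d = d := bot_symmDiff d
    rw [this]
    exact hXβ d hd
  obtain ⟨K, -, -, -, hK4, hK5⟩ := correction β' H hH0 hHc _ (not_dvd_natAbs h2) (by
    intro S hS
    refine h1 S fun q hq => ?_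
    obtain ⟨T, hT, hqT⟩ := hS q hq
    exact hHP T hT q hqT)
  obtain ⟨T, hT, hTn⟩ := hinf.exists_notMem_finset (Finset.image₂ (fun k d => k ∆ d) K X)
  obtain ⟨k, hk, hkβ⟩ := hK5 T hT
  have htX : T ∆ k ∉ X := by
    intro h
    apply hTn
    rw [Finset.mem_image₂]
    refine ⟨k, hk, T ∆ k, h, ?_⟩
    rw [symmDiff_comm T k, symmDiff_symmDiff_cancel_left]
  have htH : T ∆ k ∈ H := hHc _ hT _ (hK4 k hk)
  set t := T ∆ k with ht
  have hβt : ∀ d ∈ X, β (t ∆ d) ≠ 0 := by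
    intro d hd h
    exact hkβ (Finset.prod_eq_zero hd h)
  refine ⟨X ∪ X.image (fun d => t ∆ d), ?_, ?_, ?_, ?_⟩
  · rw [Finset.ssubset_iff_of_subset Finset.subset_union_left]
    refine ⟨t, ?_, htX⟩
    apply Finset.mem_union_right
    rw [Finset.mem_image]
    exact ⟨∅, hX0, symmDiff_bot t⟩
  · intro S hS T hT
    simp only [Finset.mem_union, Finset.mem_image] at hS hT ⊢
    rcases hS with hS | ⟨S', hS', rfl⟩ <;> rcases hT with hT | ⟨T', hT', rfl⟩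
    · exact Or.inl (hXc S hS T hT)
    · exact Or.inr ⟨S ∆ T', hXc S hS T' hT', by
        rw [← symmDiff_assoc, ← symmDiff_assoc, symmDiff_comm t S]⟩
    · exact Or.inr ⟨S' ∆ T, hXc S' hS' T hT, (symmDiff_assoc t S' T).symm⟩
    · refine Or.inl ?_
      have e : t ∆ S' ∆ (t ∆ T') = S' ∆ T' := by
        rw [symmDiff_comm t S', symmDiff_assoc, symmDiff_symmDiff_cancel_left]
      rw [e]
      exact hXc S' hS' T' hT'
  · intro S hS
    simp only [Finset.mem_union, Finset.mem_image] at hS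
    rcases hS with hS | ⟨S', hS', rfl⟩
    · exact hXH S hS
    · exact hHc _ htH _ (hXH S' hS')
  · intro S hS
    simp only [Finset.mem_union, Finset.mem_image] at hS
    rcases hS with hS | ⟨S', hS', rfl⟩
    · exact hXβ S hS
    · exact hβt S' hS'

/-- **Infinite subgroups.** -/
theorem tower {P : ℕ → Prop} {β : Finset ℕ → ℤ} (hβ : Cmp P β) (h0 : β ∅ ≠ 0)
    {H : Set (Finset ℕ)} (hinf : H.Infinite) (hH0 : ∅ ∈ H) (hHc : ∀ S ∈ H, ∀ T ∈ H, S ∆ T ∈ H)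
    (hHP : ∀ T ∈ H, ∀ q ∈ T, P q) :
    ∃ H' ⊆ H, H'.Infinite ∧ ∅ ∈ H' ∧ (∀ S ∈ H', ∀ T ∈ H', S ∆ T ∈ H') ∧ ∀ T ∈ H', β T ≠ 0 := by
  classical
  let Q : Finset (Finset ℕ) → Prop := fun X => ∅ ∈ X ∧ (∀ S ∈ X, ∀ T ∈ X, S ∆ T ∈ X) ∧
    (∀ T ∈ X, T ∈ H) ∧ ∀ T ∈ X, β T ≠ 0
  have hstep : ∀ X : {X // Q X}, ∃ Y : {X // Q X}, X.1 ⊂ Y.1 := by
    rintro ⟨X, h1, h2, h3, h4⟩
    obtain ⟨Y, h5, h6, h7, h8⟩ := step hβ hinf hH0 hHc hHP X h1 h2 h3 h4
    exact ⟨⟨Y, h5.subset h1, h6, h7, h8⟩, h5⟩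
  choose nx hnx using hstep
  have hQ0 : Q {∅} := by
    refine ⟨Finset.mem_singleton_self _, ?_, ?_, ?_⟩
    · intro S hS T hT
      rw [Finset.mem_singleton] at hS hT ⊢
      rw [hS, hT, symmDiff_self]
      rfl
    · intro T hT
      rw [Finset.mem_singleton] at hT
      rw [hT]; exact hH0
    · intro T hT
      rw [Finset.mem_singleton] at hT
      rw [hT]; exact h0
  let sq : ℕ → {X // Q X} := fun n => Nat.rec ⟨{∅}, hQ0⟩ (fun _ X => nx X) n
  have hlt : ∀ n, (sq n).1 ⊂ (sq (n + 1)).1 := fun n => hnx (sq n)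
  have hmono : StrictMono fun n => (sq n).1 := strictMono_nat_of_lt_succ hlt
  refine ⟨{T | ∃ n, T ∈ (sq n).1}, ?_, ?_, ?_, ?_, ?_⟩
  · rintro T ⟨n, hn⟩
    exact (sq n).2.2.2.1 T hn
  · intro hfin
    have hsub : ∀ n, (sq n).1 ⊆ hfin.toFinset := by
      intro n T hT
      rw [Set.Finite.mem_toFinset]
      exact ⟨n, hT⟩
    have hcard : ∀ n, n ≤ (sq n).1.card := by
      intro n
      induction n with
      | zero => exact Nat.zero_le _
      | succ n ih => exact lt_of_le_of_lt ih (Finset.card_lt_card (hlt n))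
    have h1 := hcard (hfin.toFinset.card + 1)
    have h2 := Finset.card_le_card (hsub (hfin.toFinset.card + 1))
    omega
  · exact ⟨0, (sq 0).2.1⟩
  · rintro S ⟨n, hn⟩ T ⟨m, hm⟩
    refine ⟨max n m, (sq (max n m)).2.2.1 S ?_ T ?_⟩
    · exact hmono.monotone (le_max_left n m) hn
    · exact hmono.monotone (le_max_right n m) hm
  · rintro T ⟨n, hn⟩
    exact (sq n).2.2.2.2 T hn

section tuples

/-- the symmetric difference of the members of a tuple with index in `J` -/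
def sd {n : ℕ} (J : Finset (Fin n)) (T : Fin n → Finset ℕ) : Finset ℕ :=
  (Finset.univ.biUnion T).filter fun q => Odd (J.filter fun i => q ∈ T i).card

lemma mem_sd {n : ℕ} {J : Finset (Fin n)} {T : Fin n → Finset ℕ} {q : ℕ} :
    q ∈ sd J T ↔ Odd (J.filter fun i => q ∈ T i).card := by
  unfold sd
  rw [Finset.mem_filter]
  refine ⟨fun h => h.2, fun h => ⟨?_, h⟩⟩
  have h1 : (J.filter fun i => q ∈ T i).card ≠ 0 := by
    intro h0
    rw [h0] at h
    exact absurd h (by decide)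
  obtain ⟨i, hi⟩ := Finset.card_ne_zero.1 h1
  rw [Finset.mem_biUnion]
  exact ⟨i, Finset.mem_univ _, (Finset.mem_filter.1 hi).2⟩

lemma sd_empty {n : ℕ} (T : Fin n → Finset ℕ) : sd ∅ T = ∅ := by
  ext q
  rw [mem_sd]
  simp

lemma sd_insert {n : ℕ} {J : Finset (Fin n)} {i : Fin n} (hi : i ∉ J) (T : Fin n → Finset ℕ) :
    sd (insert i J) T = T i ∆ sd J T := by
  ext q
  rw [mem_sd, Finset.mem_symmDiff, mem_sd, Finset.filter_insert]
  by_cases h : q ∈ T i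
  · rw [if_pos h, Finset.card_insert_of_notMem (fun h1 => hi (Finset.mem_filter.1 h1).1),
      Nat.odd_add_one]
    simp [h]
  · rw [if_neg h]
    simp [h]

lemma eps_sd {n : ℕ} (U : Finset ℕ) (J : Finset (Fin n)) (T : Fin n → Finset ℕ) :
    eps U (sd J T) = ∏ i ∈ J, eps U (T i) := by
  induction J using Finset.induction_on with
  | empty => rw [sd_empty, eps_empty, Finset.prod_empty]
  | insert i J hi ih => rw [sd_insert hi, eps_symmDiff, Finset.prod_insert hi, ih]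

variable (n : ℕ) [NeZero n]

lemma cinj (i : Fin n) : Function.Injective (fun q : ℕ => n * q + i) := by
  intro q q' h
  have h1 : n * q + (i : ℕ) = n * q' + i := h
  have h2 : n * q = n * q' := by omega
  exact Nat.eq_of_mul_eq_mul_left (NeZero.pos n) h2

/-- the `i`-th component of a coded tuple -/
noncomputable def dec (T : Finset ℕ) (i : Fin n) : Finset ℕ :=
  T.preimage (fun q : ℕ => n * q + i) (cinj n i).injOn

lemma mem_dec {T : Finset ℕ} {i : Fin n} {q : ℕ} : q ∈ dec n T i ↔ n * q + i ∈ T :=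
  Finset.mem_preimage

/-- the code of a tuple -/
def cod (T : Fin n → Finset ℕ) : Finset ℕ :=
  Finset.univ.biUnion fun i : Fin n => (T i).image fun q => n * q + i

lemma dec_cod (T : Fin n → Finset ℕ) : dec n (cod n T) = T := by
  funext i
  ext q
  rw [mem_dec, cod, Finset.mem_biUnion]
  constructor
  · rintro ⟨j, -, hj⟩
    rw [Finset.mem_image] at hj
    obtain ⟨q', hq', h⟩ := hj
    have h1 : (n * q' + (j : ℕ)) % n = (n * q + i) % n := by rw [h]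
    rw [Nat.mul_add_mod, Nat.mul_add_mod, Nat.mod_eq_of_lt j.2, Nat.mod_eq_of_lt i.2] at h1
    have h2 : j = i := Fin.ext h1
    subst h2
    have h3 := cinj n j h
    rwa [h3] at hq'
  · intro h
    exact ⟨i, Finset.mem_univ _, Finset.mem_image_of_mem _ h⟩

lemma dec_symm (S T : Finset ℕ) (i : Fin n) : dec n (S ∆ T) i = dec n S i ∆ dec n T i := by
  ext q
  simp only [mem_dec, Finset.mem_symmDiff]

lemma eps_dec (U T : Finset ℕ) (i : Fin n) :
    eps U (dec n T i) = eps (U.image fun q => n * q + i) T := by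
  unfold eps dec
  rw [← Finset.prod_preimage (fun q : ℕ => n * q + i) T (cinj n i).injOn
    (fun x => if x ∈ U.image (fun q => n * q + i) then (-1 : ℤ) else 1)]
  · refine Finset.prod_congr rfl fun q _ => ?_
    have : q ∈ U ↔ n * q + (i : ℕ) ∈ U.image (fun q => n * q + i) := by
      rw [Finset.mem_image]
      refine ⟨fun h => ⟨q, h, rfl⟩, ?_⟩
      rintro ⟨q', hq', h⟩
      rwa [← cinj n i h]
    by_cases h : q ∈ U
    · rw [if_pos h, if_pos (this.1 h)]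
    · rw [if_neg h, if_neg (fun h1 => h (this.2 h1))]
  · intro x _ hx
    rw [if_neg]
    intro h
    rw [Finset.mem_image] at h
    obtain ⟨q, -, hq⟩ := h
    exact hx ⟨q, hq⟩

lemma comb_sd {A : Finset ℕ → ℤ} (hA : A ∈ Comb) (J : Finset (Fin n)) :
    (fun T => A (sd J (dec n T))) ∈ Comb := by
  induction hA using Submodule.span_induction with
  | mem x hx =>
    obtain ⟨U, rfl⟩ := hx
    have : (fun T => eps U (sd J (dec n T))) =
        ∏ i ∈ J, eps (U.image fun q => n * q + (i : ℕ)) := by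
      funext T
      rw [eps_sd, Finset.prod_apply]
      exact Finset.prod_congr rfl fun i _ => eps_dec n U T i
    rw [this]
    exact Comb.prod_mem _ _ fun i _ => eps_mem _
  | zero => exact Comb.zero_mem
  | add x y _ _ h1 h2 => exact Comb.add_mem h1 h2
  | smul c x _ h => exact Comb.smul_mem c h

lemma Cmp.sd {P : ℕ → Prop} {β : Finset ℕ → ℤ} (h : Cmp P β) (J : Finset (Fin n)) :
    Cmp (fun x => P (x / n)) (fun T => β (sd J (dec n T))) := by
  classical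
  intro S hS
  obtain ⟨A, hA, h1⟩ := h (Finset.univ.biUnion (dec n S)) (by
    intro q hq
    rw [Finset.mem_biUnion] at hq
    obtain ⟨i, -, hi⟩ := hq
    have h2 : P ((n * q + (i : ℕ)) / n) := hS _ ((mem_dec n).1 hi)
    have h3 : (n * q + (i : ℕ)) / n = q := by
      rw [Nat.mul_add_div (NeZero.pos n), Nat.div_eq_of_lt i.2, add_zero]
    rwa [h3] at h2)
  refine ⟨_, comb_sd n hA J, fun T hT => ?_⟩
  apply h1
  intro q hq
  rw [NF.sd, Finset.mem_filter, Finset.mem_biUnion] at hq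
  obtain ⟨⟨i, -, hi⟩, -⟩ := hq
  rw [Finset.mem_biUnion]
  exact ⟨i, Finset.mem_univ _, (mem_dec n).2 (hT ((mem_dec n).1 hi))⟩

/-- **Tuples.** -/
theorem tuples_aux {P : ℕ → Prop} {β : Finset ℕ → ℤ} (hβ : Cmp P β) (h0 : β ∅ ≠ 0) :
    ∃ V : ℕ, ∀ H : Set (Finset ℕ), ∅ ∈ H → (∀ S ∈ H, ∀ T ∈ H, S ∆ T ∈ H) →
      (∀ T ∈ H, ∀ q ∈ T, P q) →
      ∃ K : Finset (Fin n → Finset ℕ), K.card ≤ 2 ^ V ∧ (fun _ => ∅) ∈ K ∧
        (∀ S ∈ K, ∀ T ∈ K, (fun i => S i ∆ T i) ∈ K) ∧ (∀ T ∈ K, ∀ i, T i ∈ H) ∧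
        ∀ T : Fin n → Finset ℕ, (∀ i, T i ∈ H) → ∃ k ∈ K, ∀ J : Finset (Fin n),
          β (sd J fun i => T i ∆ k i) ≠ 0 := by
  classical
  set β' : Finset ℕ → ℤ := fun T => ∏ J : Finset (Fin n), β (sd J (dec n T)) with hβ'
  have hcmp : Cmp (fun x => P (x / n)) β' := Cmp.prod _ _ fun J _ => hβ.sd n J
  have hdec0 : dec n ∅ = fun _ => ∅ := by
    funext i
    ext q
    rw [mem_dec]
    simp
  have h1 : β' ∅ ≠ 0 := by
    rw [hβ']
    refine Finset.prod_ne_zero_iff.2 fun J _ => ?_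
    have : sd J (dec n ∅) = ∅ := by
      ext q
      rw [mem_sd, hdec0]
      simp
    rw [this]
    exact h0
  refine ⟨(β' ∅).natAbs, fun H hH0 hHc hHP => ?_⟩
  obtain ⟨K, hK1, hK2, hK3, hK4, hK5⟩ := correction β' {T | ∀ i, dec n T i ∈ H}
    (fun i => by rw [hdec0]; exact hH0)
    (fun S hS T hT i => by rw [dec_symm]; exact hHc _ (hS i) _ (hT i)) _ (not_dvd_natAbs h1) (by
      intro S hS
      refine hcmp S fun x hx => ?_
      obtain ⟨T, hT, hxT⟩ := hS x hx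
      have h2 := hT ⟨x % n, Nat.mod_lt _ (NeZero.pos n)⟩
      refine hHP _ h2 _ ?_
      rw [mem_dec]
      simp only
      rw [Nat.div_add_mod]
      exact hxT)
  refine ⟨K.image (dec n), Finset.card_image_le.trans hK1, ?_, ?_, ?_, ?_⟩
  · rw [Finset.mem_image]
    exact ⟨∅, hK2, hdec0⟩
  · intro S hS T hT
    rw [Finset.mem_image] at hS hT ⊢
    obtain ⟨S', hS', rfl⟩ := hS
    obtain ⟨T', hT', rfl⟩ := hT
    exact ⟨S' ∆ T', hK3 S' hS' T' hT', funext fun i => dec_symm n S' T' i⟩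
  · intro T hT i
    rw [Finset.mem_image] at hT
    obtain ⟨T', hT', rfl⟩ := hT
    exact hK4 T' hT' i
  · intro T hT
    obtain ⟨k, hk, h2⟩ := hK5 (cod n T) (fun i => by rw [dec_cod]; exact hT i)
    refine ⟨dec n k, Finset.mem_image_of_mem _ hk, fun J h3 => h2 ?_⟩
    rw [hβ']
    refine Finset.prod_eq_zero (Finset.mem_univ J) ?_
    have : dec n (cod n T ∆ k) = fun i => T i ∆ dec n k i := by
      funext i
      rw [dec_symm, dec_cod]
    rw [this]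
    exact h3

end tuples

theorem tuples (n : ℕ) {P : ℕ → Prop} {β : Finset ℕ → ℤ} (hβ : Cmp P β) (h0 : β ∅ ≠ 0) :
    ∃ V : ℕ, ∀ H : Set (Finset ℕ), ∅ ∈ H → (∀ S ∈ H, ∀ T ∈ H, S ∆ T ∈ H) →
      (∀ T ∈ H, ∀ q ∈ T, P q) →
      ∃ K : Finset (Fin n → Finset ℕ), K.card ≤ 2 ^ V ∧ (fun _ => ∅) ∈ K ∧
        (∀ S ∈ K, ∀ T ∈ K, (fun i => S i ∆ T i) ∈ K) ∧ (∀ T ∈ K, ∀ i, T i ∈ H) ∧
        ∀ T : Fin n → Finset ℕ, (∀ i, T i ∈ H) → ∃ k ∈ K, ∀ J : Finset (Fin n),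
          β (sd J fun i => T i ∆ k i) ≠ 0 := by
  rcases Nat.eq_zero_or_pos n with rfl | hn
  · refine ⟨0, fun H _ _ _ => ⟨{fun _ => ∅}, by simp, Finset.mem_singleton_self _, ?_, ?_, ?_⟩⟩
    · intro S _ T _
      rw [Finset.mem_singleton]
      exact Subsingleton.elim _ _
    · intro T _ i
      exact i.elim0
    · intro T _
      refine ⟨_, Finset.mem_singleton_self _, fun J => ?_⟩
      have : J = ∅ := Subsingleton.elim _ _
      rw [this, sd_empty]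
      exact h0
  · have : NeZero n := ⟨hn.ne'⟩
    exact tuples_aux n hβ h0

end Pool.Agent.Y18.NF
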