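import Pool.Agent.Y18.NF.Tr
import Pool.Agent.Y18.NF.Abs
import Pool.Agent.Y18.NF.El

/-!
Nonvanishing of the `L`-functions of elliptic curves over multiquadratic fields.
-/

set_option autoImplicit false

open NumberField IsDedekindDomain UpperHalfPlane MatrixGroups CongruenceSubgroup
open scoped symmDiff

namespace Pool.Agent.Y18.NF

open Pool.Agent.Y18.BSD
open Pool.Agent.W263.BSD (pointCount GoodPrime IsLSeries)
open W165.CE (fac)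

/-- the `L`-function over `F` is entire and does not vanish at `s = 1` -/
def RZ (F : IntermediateField ℚ ℂ) [NumberField F] (a b : ℤ) {N : ℕ}
    (f : CuspForm (Gamma0 N : Subgroup (GL (Fin 2) ℝ)) 2) : Prop :=
  ∃ G : ℂ → ℂ, Differentiable ℂ G ∧
    (∀ s : ℂ, 3 / 2 < s.re → HasProd (fac (K := F) a b N (co f) s) (G s)) ∧ G 1 ≠ 0

/-- the data extracted from several curves -/
theorem curves (m : ℕ) (a b : Fin m → ℤ) (hΔ : ∀ i, 4 * a i ^ 3 + 27 * b i ^ 2 ≠ 0)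
    (N : Fin m → ℕ) [∀ i, NeZero (N i)]
    (f : (i : Fin m) → CuspForm (Gamma0 (N i) : Subgroup (GL (Fin 2) ℝ)) 2)
    (hf : ∀ i, IsFormOf (a i) (b i) (N i) (f i)) (h0 : ∀ i, RankZero (a i) (b i)) :
    ∃ β : Finset ℕ → ℤ, β ∅ ≠ 0 ∧ Cmp (fun q => ∀ i, Adm (a i) (b i) q) β ∧
      ∀ T : Finset ℕ, (∀ q ∈ T, ∀ i, Adm (a i) (b i) q) → β T ≠ 0 →
        ∀ i, RankZero (a i * disc T ^ 2) (b i * disc T ^ 3) := by
  classical
  have h1 : ∀ i, RankZero (a i * disc ∅ ^ 2) (b i * disc ∅ ^ 3) := by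
    intro i
    rw [disc_empty, one_pow, one_pow, mul_one, mul_one]
    exact h0 i
  choose β hβ0 hβr hβA using fun i => one_curve (B := ∅) (hΔ i) (hf i) (by simp) (h1 i)
  refine ⟨fun T => ∏ i, β i T, Finset.prod_ne_zero_iff.2 fun i _ => hβ0 i, ?_, ?_⟩
  · refine Cmp.prod Finset.univ β fun i _ S hS => ?_
    exact hβA i S fun q hq => ⟨hS q hq i, Finset.notMem_empty q⟩
  · intro T hT hβT i
    have h2 := hβr i T (fun q hq => ⟨hT q hq i, Finset.notMem_empty q⟩)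
      (fun h => hβT (Finset.prod_eq_zero (Finset.mem_univ i) h))
    rw [disc_empty, one_mul] at h2
    exact h2

/-- **Infinite towers.** -/
theorem tower_main (m : ℕ) (a b : Fin m → ℤ) (hΔ : ∀ i, 4 * a i ^ 3 + 27 * b i ^ 2 ≠ 0)
    (N : Fin m → ℕ) [∀ i, NeZero (N i)]
    (f : (i : Fin m) → CuspForm (Gamma0 (N i) : Subgroup (GL (Fin 2) ℝ)) 2)
    (hf : ∀ i, IsFormOf (a i) (b i) (N i) (f i)) (h0 : ∀ i, RankZero (a i) (b i))
    (H : Set (Finset ℕ)) (hinf : H.Infinite) (hH0 : ∅ ∈ H) (hHc : ∀ S ∈ H, ∀ T ∈ H, S ∆ T ∈ H)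
    (hHa : ∀ T ∈ H, ∀ q ∈ T, ∀ i, Adm (a i) (b i) q) :
    ∃ H' ⊆ H, H'.Infinite ∧ ∅ ∈ H' ∧ (∀ S ∈ H', ∀ T ∈ H', S ∆ T ∈ H') ∧
      ∀ (F : IntermediateField ℚ ℂ) [NumberField F],
        F ≤ IntermediateField.adjoin ℚ {z : ℂ | ∃ T ∈ H', z ^ 2 = ((disc T : ℤ) : ℂ)} →
        ∀ i, RZ F (a i) (b i) (f i) := by
  obtain ⟨β, hβ0, hβc, hβr⟩ := curves m a b hΔ N f hf h0
  obtain ⟨H', h1, h2, h3, h4, h5⟩ := tower hβc hβ0 hinf hH0 hHc hHa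
  refine ⟨H', h1, h2, h3, h4, fun F _ hF i => ?_⟩
  exact core (hΔ i) (hf i) H' h3 h4 (fun T hT q hq => (hHa T (h1 hT) q hq i).1)
    (fun T hT => hβr T (hHa T (h1 hT)) (h5 T hT) i) F hF

lemma sd_symmDiff {n : ℕ} (I J : Finset (Fin n)) (T : Fin n → Finset ℕ) :
    sd (I ∆ J) T = sd I T ∆ sd J T := by
  classical
  ext q
  rw [Finset.mem_symmDiff, mem_sd, mem_sd, mem_sd]
  have e1 : ((I ∆ J).filter fun i => q ∈ T i) =
      (I.filter fun i => q ∈ T i) ∆ (J.filter fun i => q ∈ T i) := by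
    ext i
    simp only [Finset.mem_filter, Finset.mem_symmDiff]
    tauto
  rw [e1]
  set A := I.filter fun i => q ∈ T i
  set B := J.filter fun i => q ∈ T i
  have h1 : (A ∆ B).card = (A \ B).card + (B \ A).card := by
    have : A ∆ B = (A \ B) ∪ (B \ A) := rfl
    rw [this, Finset.card_union_of_disjoint disjoint_sdiff_sdiff]
  have h2 : (A \ B).card + (A ∩ B).card = A.card := Finset.card_sdiff_add_card_inter A B
  have h3 : (B \ A).card + (B ∩ A).card = B.card := Finset.card_sdiff_add_card_inter B A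
  have h4 : (B ∩ A).card = (A ∩ B).card := by rw [Finset.inter_comm]
  rw [Nat.odd_iff, Nat.odd_iff, Nat.odd_iff]
  omega

lemma sd_single {n : ℕ} (i : Fin n) (T : Fin n → Finset ℕ) : sd {i} T = T i := by
  have h := sd_insert (Finset.notMem_empty i) T
  rw [sd_empty] at h
  have e : (insert i (∅ : Finset (Fin n))) = {i} := rfl
  rw [e] at h
  rw [h]
  exact symmDiff_bot (T i)

lemma sd_sub {n : ℕ} {J : Finset (Fin n)} {T : Fin n → Finset ℕ} {q : ℕ} (hq : q ∈ sd J T) :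
    ∃ i, q ∈ T i := by
  unfold sd at hq
  have h := (Finset.mem_filter.1 hq).1
  rw [Finset.mem_biUnion] at h
  obtain ⟨i, -, hi⟩ := h
  exact ⟨i, hi⟩

/-- **Multiquadratic fields.** -/
theorem mq_main (m n : ℕ) (a b : Fin m → ℤ) (hΔ : ∀ i, 4 * a i ^ 3 + 27 * b i ^ 2 ≠ 0)
    (N : Fin m → ℕ) [∀ i, NeZero (N i)]
    (f : (i : Fin m) → CuspForm (Gamma0 (N i) : Subgroup (GL (Fin 2) ℝ)) 2)
    (hf : ∀ i, IsFormOf (a i) (b i) (N i) (f i)) (h0 : ∀ i, RankZero (a i) (b i)) :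
    ∃ V : ℕ, ∀ H : Set (Finset ℕ), ∅ ∈ H → (∀ S ∈ H, ∀ T ∈ H, S ∆ T ∈ H) →
      (∀ T ∈ H, ∀ q ∈ T, ∀ i, Adm (a i) (b i) q) →
      ∃ K : Finset (Fin n → Finset ℕ), K.card ≤ 2 ^ V ∧ (fun _ => ∅) ∈ K ∧
        (∀ S ∈ K, ∀ T ∈ K, (fun j => S j ∆ T j) ∈ K) ∧ (∀ T ∈ K, ∀ j, T j ∈ H) ∧
        ∀ T : Fin n → Finset ℕ, (∀ j, T j ∈ H) → ∃ k ∈ K,
          ∀ (F : IntermediateField ℚ ℂ) [NumberField F],
            F ≤ IntermediateField.adjoin ℚ {z : ℂ | ∃ j, z ^ 2 = ((disc (T j ∆ k j) : ℤ) : ℂ)} →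
            ∀ i, RZ F (a i) (b i) (f i) := by
  obtain ⟨β, hβ0, hβc, hβr⟩ := curves m a b hΔ N f hf h0
  obtain ⟨V, hV⟩ := tuples n hβc hβ0
  refine ⟨V, fun H hH0 hHc hHa => ?_⟩
  obtain ⟨K, hK1, hK2, hK3, hK4, hK5⟩ := hV H hH0 hHc hHa
  refine ⟨K, hK1, hK2, hK3, hK4, fun T hT => ?_⟩
  obtain ⟨k, hk, h1⟩ := hK5 T hT
  refine ⟨k, hk, fun F _ hF i => ?_⟩
  have hTk : ∀ j, T j ∆ k j ∈ H := fun j => hHc _ (hT j) _ (hK4 k hk j)
  have hadm : ∀ J : Finset (Fin n), ∀ q ∈ sd J (fun j => T j ∆ k j), ∀ i, Adm (a i) (b i) q := by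
    intro J q hq
    obtain ⟨j, hj⟩ := sd_sub hq
    exact hHa _ (hTk j) q hj
  refine core (hΔ i) (hf i) {S | ∃ J : Finset (Fin n), S = sd J (fun j => T j ∆ k j)} ?_ ?_ ?_ ?_
    F (hF.trans (IntermediateField.adjoin.mono ℚ _ _ ?_))
  · exact ⟨∅, (sd_empty _).symm⟩
  · rintro S ⟨J, rfl⟩ S' ⟨J', rfl⟩
    exact ⟨J ∆ J', (sd_symmDiff J J' _).symm⟩
  · rintro S ⟨J, rfl⟩ q hq
    exact (hadm J q hq i).1
  · rintro S ⟨J, rfl⟩
    exact hβr _ (hadm J) (h1 J) i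
  · rintro z ⟨j, hz⟩
    exact ⟨T j ∆ k j, ⟨{j}, (sd_single j (fun j => T j ∆ k j)).symm⟩, hz⟩

end Pool.Agent.Y18.NF
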