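import Pool.Agent.Y18.NF.Chars
import Pool.Agent.Y702.L.Loc
import Pool.Agent.W165.CE.Euler

/-!
The Euler product of an elliptic curve over a subfield of a cyclotomic field.
-/

set_option autoImplicit false

open NumberField IsDedekindDomain H300.HW UpperHalfPlane MatrixGroups CongruenceSubgroup
open scoped symmDiff

namespace Pool.Agent.Y18.NF

open Pool.Agent.Y18.BSD
open Pool.Agent.H921R2.TatePole
open Pool.Agent.W263.BSD (pointCount GoodPrime IsLSeries)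
open W165.CE (fac fac_eq pw multipliable_fac ap0)
open Pool.Agent.Y702.L (pv local_quad)

/-- the Euler factor at `p` of the twist by a character with the value `z` at `p` -/
noncomputable def ez (N : ℕ) (c : ℕ → ℂ) (z : ℂ) (s : ℂ) (p : ℕ) : ℂ :=
  (1 - z * c p * (p : ℂ) ^ (-s) + z ^ 2 * ((if p ∣ N then 0 else (p : ℂ)) * ((p : ℂ) ^ (-s)) ^ 2))⁻¹

open Classical in
/-- the Euler product over a subfield of a cyclotomic field -/
theorem hasProd_F {a b : ℤ} (hE : 4 * a ^ 3 + 27 * b ^ 2 ≠ 0) {N : ℕ} {c : ℕ → ℂ}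
    (H : ∀ p : ℕ, p.Prime → ¬ (p : ℤ) ∣ 2 * (4 * a ^ 3 + 27 * b ^ 2) →
      ¬ p ∣ N ∧ c p = ((ap0 a b p : ℤ) : ℂ))
    (n : ℕ) [NeZero n] (L : Type) [Field L] [NumberField L] [IsCyclotomicExtension {n} ℚ L]
    (F : IntermediateField ℚ L) (G : DirichletCharacter ℂ n → ℂ → ℂ) (s : ℂ) (hs : 3 / 2 < s.re)
    (hG : ∀ χ ∈ YY n L F, HasProd (fun p : Nat.Primes => ez N c (pv n χ p) s p) (G χ s)) :
    HasProd (fac (K := F) a b N c s) (∏ χ : YY n L F, G χ s) := by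
  have h1 : HasProd (fun p : Nat.Primes => ∏ χ : YY n L F, ez N c (pv n χ.1 p) s p)
      (∏ χ : YY n L F, G χ s) := by
    apply hasProd_prod
    intro χ _
    exact hG χ.1 χ.2
  have h2 : ∀ p : Nat.Primes, ∏ χ : YY n L F, ez N c (pv n χ.1 p) s p =
      ∏ v : {v : HeightOneSpectrum (𝓞 F) // below v = p}, fac a b N c s v.1 := by
    intro p
    have h3 : ∀ v : {v : HeightOneSpectrum (𝓞 F) // below v = p}, fac a b N c s v.1 =
        (1 - pw (c p) (if (p : ℕ) ∣ N then 0 else ((p : ℕ) : ℂ)) (deg v.1) *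
            (((p : ℕ) : ℂ) ^ (-s)) ^ deg v.1 +
          (if (p : ℕ) ∣ N then 0 else ((p : ℕ) : ℂ)) ^ deg v.1 *
            (((p : ℕ) : ℂ) ^ (-s)) ^ (2 * deg v.1))⁻¹ := by
      rintro ⟨v, hv⟩
      subst hv
      exact fac_eq H v s
    rw [Finset.prod_congr rfl (fun v _ => h3 v), Finset.prod_inv_distrib,
      local_quad n L F p (c p) (if (p : ℕ) ∣ N then 0 else ((p : ℕ) : ℂ)) (((p : ℕ) : ℂ) ^ (-s)),
      ← Finset.prod_inv_distrib]
    rfl
  simp_rw [h2] at h1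
  have h3 : Multipliable (fac (K := F) a b N c s) := multipliable_fac hE s hs
  rw [← (Equiv.sigmaFiberEquiv (below (K := F))).hasProd_iff]
  refine HasProd.sigma_of_hasProd h1 (fun p => ?_) ?_
  · exact hasProd_fintype _
  · exact (Equiv.sigmaFiberEquiv (below (K := F))).multipliable_iff.2 h3

variable {N : ℕ} [NeZero N] {a b : ℤ} {f : CuspForm (Gamma0 N : Subgroup (GL (Fin 2) ℝ)) 2}

/-- the complete twisted `L`-function -/
theorem twist_complete (hΔ : 4 * a ^ 3 + 27 * b ^ 2 ≠ 0) (hf : IsFormOf a b N f) {T : Finset ℕ}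
    (hT : ∀ q ∈ T, GoodPrime a b q) (h0 : RankZero (a * disc T ^ 2) (b * disc T ^ 3)) :
    ∃ G : ℂ → ℂ, Differentiable ℂ G ∧ (∀ s : ℂ, 3 / 2 < s.re →
      HasProd (fun p : Nat.Primes => ez N (co f) (jacobiSym (p : ℕ) (dd T) : ℂ) s p) (G s)) ∧
      G 1 ≠ 0 := by
  have hTp : ∀ q ∈ T, q.Prime := fun q hq => (hT q hq).1
  have : NeZero (dd T) := ⟨dd_ne_zero hTp⟩
  obtain ⟨w, hnf, hfr⟩ := hf.newf
  have hc := hf.cf
  obtain ⟨G, hG, κ, hκ, h1⟩ := twist_lseries hΔ hf hT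
  obtain ⟨F, hF, hF1⟩ := h0
  rw [isLSeries_unique hG hF] at h1
  have hTp2 : ∀ q ∈ T, q.Prime ∧ q ≠ 2 := fun q hq => ⟨(hT q hq).1, good_ne_two (hT q hq)⟩
  obtain ⟨χ, hχ, hχj⟩ := H385.jac_char (dd T) (dd_odd hTp2) (dd_sqfree hTp)
  have hco : Nat.Coprime (dd T) N := by
    unfold dd
    rw [Nat.coprime_prod_left_iff]
    intro q hq
    exact (Nat.Prime.coprime_iff_not_dvd (hTp q hq)).2 (hf.points q (hT q hq)).1
  obtain ⟨L, hL1, hL2, hL3⟩ := exists_L hnf hfr hc (dd T) χ hχ hco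
  refine ⟨L, hL1, fun s hs => ?_, fun hL0 => ?_⟩
  · have h2 := hc.euler χ hs
    rw [← hL2 s hs] at h2
    have h3 : (fun p : ℕ => if p.Prime then (lf N (co f) χ s p)⁻¹ else 1) =
        Set.mulIndicator {p : ℕ | p.Prime} (fun p => (lf N (co f) χ s p)⁻¹) := by
      funext p
      by_cases hp : p.Prime
      · rw [if_pos hp, Set.mulIndicator_of_mem (show p ∈ {p : ℕ | p.Prime} from hp)]
      · rw [if_neg hp, Set.mulIndicator_of_notMem (show p ∉ {p : ℕ | p.Prime} from hp)]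
    rw [h3] at h2
    have h4 := hasProd_subtype_iff_mulIndicator.2 h2
    refine (congrArg (fun g => HasProd g (L s)) (funext fun p : Nat.Primes => ?_)).mp h4
    show (lf N (co f) χ s (p : ℕ))⁻¹ = _
    unfold lf ez
    rw [hχj]
    congr 2
    split_ifs with h
    · simp
    · have hp0 : ((p : ℕ) : ℂ) ≠ 0 := by exact_mod_cast p.2.ne_zero
      have e : ((p : ℕ) : ℂ) ^ (1 - 2 * s) = (p : ℕ) * (((p : ℕ) : ℂ) ^ (-s)) ^ 2 := by
        rw [show (1 - 2 * s : ℂ) = 1 + ((-s) + (-s)) by ring, Complex.cpow_add _ _ hp0,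
          Complex.cpow_add _ _ hp0, Complex.cpow_one]
        ring
      rw [e]
  · rw [hL0, mul_zero] at hL3
    have h2 : psi (bv f) T (dd T) = 0 := by
      rw [hL3]
      unfold psi
      refine Finset.sum_congr rfl fun u _ => ?_
      have h2 : χ⁻¹ (u : ZMod (dd T)) = (jc T u : ℂ) := by
        rw [MulChar.inv_apply_eq_inv']
        have h3 : χ (u : ZMod (dd T)) = (jc T u : ℂ) := by
          have := hχj (u : ZMod (dd T)).val
          rw [ZMod.natCast_zmod_val] at this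
          exact this
        rw [h3]
        have h4 : (jc T u : ℂ) ^ 2 = 1 := by
          exact_mod_cast congrArg (fun x : ℤ => (x : ℂ)) (jc_sq T dvd_rfl u)
        exact inv_eq_of_mul_eq_one_left (by rw [← sq, h4])
      rw [h2]
      rfl
    rw [h2] at h1
    exact (mul_ne_zero hκ hF1) h1

lemma form_H (hf : IsFormOf a b N f) (p : ℕ) (hp : p.Prime)
    (hd : ¬ (p : ℤ) ∣ 2 * (4 * a ^ 3 + 27 * b ^ 2)) :
    ¬ p ∣ N ∧ co f p = ((ap0 a b p : ℤ) : ℂ) := by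
  have h1 : GoodPrime a b p := ⟨hp, fun h => hd (by
    have e : 2 * (4 * a ^ 3 + 27 * b ^ 2) = -(2 * (-4 * a ^ 3 - 27 * b ^ 2)) := by ring
    rw [e]
    exact (Int.dvd_neg).2 h)⟩
  obtain ⟨h2, h3⟩ := hf.points p h1
  refine ⟨h2, ?_⟩
  rw [h3]
  unfold ap0 pointCount
  push_cast
  rfl

open Classical in
/-- **The `L`-function over a subfield of a cyclotomic field.** -/
theorem core_cyc (hΔ : 4 * a ^ 3 + 27 * b ^ 2 ≠ 0) (hf : IsFormOf a b N f)
    (X : Set (Finset ℕ)) (S0 : Finset ℕ) (h0 : ∀ q ∈ S0, q.Prime ∧ q ≠ 2) (hX0 : ∅ ∈ X)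
    (hXc : ∀ S ∈ X, ∀ T ∈ X, S ∆ T ∈ X) (hXg : ∀ T ∈ X, T ⊆ S0 → ∀ q ∈ T, GoodPrime a b q)
    (hXr : ∀ T ∈ X, T ⊆ S0 → RankZero (a * disc T ^ 2) (b * disc T ^ 3))
    (n : ℕ) [NeZero n] (hn : dd S0 ∣ n) (L : Type) [Field L] [NumberField L]
    [IsCyclotomicExtension {n} ℚ L] (F : IntermediateField ℚ L)
    (hF : F ≤ IntermediateField.adjoin ℚ {z : L | ∃ T ∈ X, T ⊆ S0 ∧ z ^ 2 = ((disc T : ℤ) : L)}) :
    ∃ G : ℂ → ℂ, Differentiable ℂ G ∧
      (∀ s : ℂ, 3 / 2 < s.re → HasProd (fac (K := F) a b N (co f) s) (G s)) ∧ G 1 ≠ 0 := by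
  have h1 : ∀ χ : DirichletCharacter ℂ n, ∃ G : ℂ → ℂ, χ ∈ YY n L F → Differentiable ℂ G ∧
      (∀ s : ℂ, 3 / 2 < s.re → HasProd (fun p : Nat.Primes => ez N (co f) (pv n χ p) s p) (G s)) ∧
      G 1 ≠ 0 := by
    intro χ
    by_cases hχ : χ ∈ YY n L F
    · obtain ⟨T, hT, hTS, hval⟩ := YY_sub n L X S0 h0 hn hX0 hXc F hF hχ
      obtain ⟨G, hG1, hG2, hG3⟩ := twist_complete hΔ hf (hXg T hT hTS) (hXr T hT hTS)
      refine ⟨G, fun _ => ⟨hG1, fun s hs => ?_, hG3⟩⟩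
      have h2 := hG2 s hs
      refine (congrArg (fun g => HasProd g (G s)) (funext fun p : Nat.Primes => ?_)).mp h2
      unfold pv
      rw [pv_jac n (fun q hq => h0 q (hTS hq)) ((dd_dvd hTS).trans hn) hval]
    · exact ⟨0, fun h => absurd h hχ⟩
  choose G hG using h1
  refine ⟨fun s => ∏ χ : YY n L F, G χ s, ?_, fun s hs => ?_, ?_⟩
  · exact Differentiable.fun_finsetProd fun χ _ => (hG χ.1 χ.2).1
  · exact hasProd_F hΔ (form_H hf) n L F G s hs fun χ hχ => (hG χ hχ).2.1 s hs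
  · exact Finset.prod_ne_zero_iff.2 fun χ _ => (hG χ.1 χ.2).2.2

end Pool.Agent.Y18.NF
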